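import Pool.Agent.Lib.MP_d38294_al.Abs

/-!
# The RB-index of the Albert algebra is 5

`Albert F` is the space of Hermitian `3 × 3` matrices over the split octonions (Zorn vector
matrices) over a field `F` of characteristic zero, with Jordan product `X ∘ Y = (XY + YX)/2`.
The least `n` with `R ^ n = 0` for every Rota-Baxter operator `R` of weight zero equals `5`.
-/

namespace Pool.Agent.Results.MP_d38294_al.RBIndexAlbert

open Pool.Agent.Lib.MP_d38294_al

/-- For every field `F` of characteristic `0`, the least `n` such that `R ^ n = 0` for every
Rota-Baxter operator `R` of weight `0` on the Albert algebra `H₃(O)` over `F` equals `5`. -/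
theorem result (F : Type*) [Field F] [CharZero F] :
    IsLeast {n : ℕ | ∀ R : Module.End F (Albert F), IsRotaBaxter R → R ^ n = 0} 5 := by
  constructor
  · intro R hR
    refine LinearMap.ext fun X => ?_
    have hR' : ∀ X Y : albert F, mu ((R : albert F →ₗ[F] albert F) X)
      ((R : albert F →ₗ[F] albert F) Y) = (R : albert F →ₗ[F] albert F)
        (mu ((R : albert F →ₗ[F] albert F) X) Y + mu X ((R : albert F →ₗ[F] albert F) Y)) := hR
    have h := rb_pow_five mu one' tr mu_comm mu_one tr_one tr_assoc cubic
      (R : albert F →ₗ[F] albert F) hR' X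
    exact h
  · intro n hn
    by_contra hlt
    have hle : n ≤ 4 := by omega
    have h0 : (Rop : Module.End F (albert F)) ^ n = 0 :=
      hn (Rop : albert F →ₗ[F] albert F) Rop_rb
    exact Rop_four_ne (pow_eq_zero_of_le hle h0)

end Pool.Agent.Results.MP_d38294_al.RBIndexAlbert
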